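import Mathlib

open MeasureTheory Set Filter Topology
open scoped Pointwise

namespace Pool.Agent.Results.MP_d100af_an.UniversalPartner

/-- A Cantor set in `ℝ`: nonempty, compact, totally disconnected, without isolated points. -/
structure IsCantor (C : Set ℝ) : Prop where
  nonempty : C.Nonempty
  isCompact : IsCompact C
  totallyDisconnected : IsTotallyDisconnected C
  accPt : ∀ x ∈ C, AccPt x (𝓟 C)

/-- The product `K × K'` as a subset of the Euclidean plane. -/
def planeProd (K K' : Set ℝ) : Set (EuclideanSpace ℝ (Fin 2)) := {z | z 0 ∈ K ∧ z 1 ∈ K'}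

/-- The tree distance set of `X` for the graph `T`: all vectors of edge lengths
`(|y^a - y^b|)_{a ∼ b}` of pairwise distinct points `y^a ∈ X`. -/
def treeDistanceSet {V : Type} (T : SimpleGraph V) (X : Set (EuclideanSpace ℝ (Fin 2))) :
    Set (T.edgeSet → ℝ) :=
  {δ | ∃ y : V → EuclideanSpace ℝ (Fin 2), Function.Injective y ∧ (∀ a, y a ∈ X) ∧
    ∀ (a b : V) (h : T.Adj a b), δ ⟨s(a, b), h⟩ = dist (y a) (y b)}

/-! ### Digit series -/

/-- The value of a digit sequence (digits `0, …, b-2` in base `b`). -/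
noncomputable def phi (b : ℕ) (d : ℕ → Fin (b - 1)) : ℝ :=
  ∑' k : ℕ, ((d k : ℕ) : ℝ) * ((1 / b : ℝ) ^ (k + 1))

lemma phi_summable {b : ℕ} (hb : 2 ≤ b) (d : ℕ → Fin (b - 1)) :
    Summable fun k : ℕ => ((d k : ℕ) : ℝ) * ((1 / b : ℝ) ^ (k + 1)) := by
  have hb0 : (0 : ℝ) < b := by positivity
  have hb1 : (1 / b : ℝ) < 1 := by
    rw [div_lt_one hb0]; exact_mod_cast (by omega : 1 < b)
  have hg : Summable fun k : ℕ => (b : ℝ) * ((1 / b : ℝ) ^ (k + 1)) :=
    ((summable_nat_add_iff 1).2 (summable_geometric_of_lt_one (by positivity) hb1)).mul_left _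
  refine Summable.of_nonneg_of_le (fun k => by positivity) (fun k => ?_) hg
  have : ((d k : ℕ) : ℝ) ≤ b := by
    have := (d k).2
    exact_mod_cast (by omega : (d k : ℕ) ≤ b)
  gcongr

lemma phi_continuous {b : ℕ} (hb : 2 ≤ b) : Continuous (phi b) := by
  have hb0 : (0 : ℝ) < b := by positivity
  have hb1 : (1 / b : ℝ) < 1 := by
    rw [div_lt_one hb0]; exact_mod_cast (by omega : 1 < b)
  have hg : Summable fun k : ℕ => (b : ℝ) * ((1 / b : ℝ) ^ (k + 1)) :=
    ((summable_nat_add_iff 1).2 (summable_geometric_of_lt_one (by positivity) hb1)).mul_left _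
  unfold phi
  refine continuous_tsum (fun k => ?_) hg (fun k d => ?_)
  · have : Continuous fun d : ℕ → Fin (b - 1) => ((d k : ℕ) : ℝ) :=
      (continuous_of_discreteTopology (f := fun e : Fin (b - 1) => ((e : ℕ) : ℝ))).comp
        (continuous_apply k)
    exact this.mul continuous_const
  · rw [Real.norm_of_nonneg (by positivity)]
    have : ((d k : ℕ) : ℝ) ≤ b := by
      have := (d k).2
      exact_mod_cast (by omega : (d k : ℕ) ≤ b)
    gcongr

lemma phi_nonneg {b : ℕ} (d : ℕ → Fin (b - 1)) : 0 ≤ phi b d :=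
  tsum_nonneg fun k => by positivity

/-- The digit set `P_b`. -/
def P (b : ℕ) : Set ℝ := Set.range (phi b)

lemma P_compact {b : ℕ} (hb : 2 ≤ b) : IsCompact (P b) := isCompact_range (phi_continuous hb)

/-- Shifting the digits. -/
lemma phi_shift {b : ℕ} (hb : 2 ≤ b) (d : ℕ → Fin (b - 1)) :
    phi b d = (b : ℝ)⁻¹ * (((d 0 : ℕ) : ℝ) + phi b fun k => d (k + 1)) := by
  unfold phi
  rw [(phi_summable hb d).tsum_eq_zero_add, mul_add, ← tsum_mul_left]
  congr 1
  · rw [zero_add, pow_one]; ring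
  · refine tsum_congr fun k => ?_
    rw [pow_succ (1 / (b : ℝ)) (k + 1)]
    ring

lemma P_null {b : ℕ} (hb : 2 ≤ b) : volume (P b) = 0 := by
  have hb0 : (0 : ℝ) < b := by positivity
  have hfin : volume (P b) ≠ ⊤ := (P_compact hb).measure_lt_top.ne
  have hsub : P b ⊆ ⋃ e : Fin (b - 1), (fun x : ℝ => (b : ℝ)⁻¹ * (((e : ℕ) : ℝ) + x)) '' P b := by
    rintro _ ⟨d, rfl⟩
    rw [mem_iUnion]
    exact ⟨d 0, phi b fun k => d (k + 1), mem_range_self _, (phi_shift hb d).symm⟩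
  have hpiece : ∀ e : Fin (b - 1),
      volume ((fun x : ℝ => (b : ℝ)⁻¹ * (((e : ℕ) : ℝ) + x)) '' P b) =
        ENNReal.ofReal ((b : ℝ)⁻¹) * volume (P b) := by
    intro e
    have h1 : (fun x : ℝ => (b : ℝ)⁻¹ * (((e : ℕ) : ℝ) + x)) '' P b =
        (fun x : ℝ => (b : ℝ)⁻¹ * x) '' ((fun x : ℝ => ((e : ℕ) : ℝ) + x) '' P b) := by
      rw [image_image]
    rw [h1]
    have h2 : (fun x : ℝ => (b : ℝ)⁻¹ * x) '' ((fun x : ℝ => ((e : ℕ) : ℝ) + x) '' P b) =
        (b : ℝ)⁻¹ • ((fun x : ℝ => ((e : ℕ) : ℝ) + x) '' P b) := rfl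
    rw [h2, Measure.addHaar_smul, Module.finrank_self, pow_one, abs_of_pos (by positivity),
      image_add_left, measure_preimage_add]
  have h1 : volume (P b) ≤ ((b - 1 : ℕ) : ENNReal) * (ENNReal.ofReal ((b : ℝ)⁻¹) * volume (P b)) := by
    calc volume (P b) ≤ ∑ e : Fin (b - 1),
          volume ((fun x : ℝ => (b : ℝ)⁻¹ * (((e : ℕ) : ℝ) + x)) '' P b) :=
          (measure_mono hsub).trans (measure_iUnion_fintype_le _ _)
      _ = _ := by
          simp only [hpiece, Finset.sum_const, Finset.card_univ, Fintype.card_fin, nsmul_eq_mul]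
  by_contra hne
  have h2 : (volume (P b)).toReal ≤ ((b - 1 : ℕ) : ℝ) * ((b : ℝ)⁻¹ * (volume (P b)).toReal) := by
    have h3 := ENNReal.toReal_mono (by finiteness) h1
    rw [ENNReal.toReal_mul, ENNReal.toReal_mul, ENNReal.toReal_ofReal (by positivity),
      ENNReal.toReal_natCast] at h3
    exact h3
  have h4 : 0 < (volume (P b)).toReal := ENNReal.toReal_pos hne hfin
  have h5 : ((b - 1 : ℕ) : ℝ) * (b : ℝ)⁻¹ < 1 := by
    rw [← div_eq_mul_inv, div_lt_one hb0]
    exact_mod_cast (by omega : b - 1 < b)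
  rw [← mul_assoc] at h2
  nlinarith

lemma P_accPt {b : ℕ} (hb : 3 ≤ b) (x : ℝ) (hx : x ∈ P b) : AccPt x (𝓟 (P b)) := by
  obtain ⟨d, rfl⟩ := hx
  have hb0 : (0 : ℝ) < b := by positivity
  have hb1 : (1 / b : ℝ) < 1 := by
    rw [div_lt_one hb0]; exact_mod_cast (by omega : 1 < b)
  -- change the `K`-th digit
  have hex : ∀ K : ℕ, ∃ e : Fin (b - 1), e ≠ d K := by
    intro K
    have : Nontrivial (Fin (b - 1)) := Fin.nontrivial_iff_two_le.2 (by omega)
    exact exists_ne _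
  choose e he using hex
  have hval : ∀ K, phi b (Function.update d K (e K)) =
      phi b d + (((e K : ℕ) : ℝ) - ((d K : ℕ) : ℝ)) * (1 / b : ℝ) ^ (K + 1) := by
    intro K
    have h1 := (phi_summable (by omega) d).hasSum.update K
      (((e K : ℕ) : ℝ) * ((1 / b : ℝ) ^ (K + 1)))
    have h2 : Function.update (fun k : ℕ => ((d k : ℕ) : ℝ) * ((1 / b : ℝ) ^ (k + 1))) K
        (((e K : ℕ) : ℝ) * ((1 / b : ℝ) ^ (K + 1))) =
        fun k : ℕ => ((Function.update d K (e K) k : ℕ) : ℝ) * ((1 / b : ℝ) ^ (k + 1)) := by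
      funext k
      by_cases hk : k = K
      · subst hk; simp
      · simp [Function.update_of_ne hk]
    rw [h2] at h1
    have h3 := h1.tsum_eq
    unfold phi
    rw [h3]
    ring
  rw [accPt_iff_frequently]
  have hlim : Tendsto (fun K => phi b (Function.update d K (e K))) atTop (𝓝 (phi b d)) := by
    have h1 : Tendsto (fun K : ℕ => (b : ℝ) * (1 / b : ℝ) ^ (K + 1)) atTop (𝓝 (b * 0)) :=
      (((tendsto_pow_atTop_nhds_zero_of_lt_one (by positivity) hb1).comp
        (tendsto_add_atTop_nat 1)).const_mul _)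
    rw [mul_zero] at h1
    rw [tendsto_iff_dist_tendsto_zero]
    refine squeeze_zero (fun K => dist_nonneg) (fun K => ?_) h1
    rw [hval K, Real.dist_eq, add_sub_cancel_left, abs_mul,
      abs_of_nonneg (by positivity : (0 : ℝ) ≤ (1 / b : ℝ) ^ (K + 1))]
    refine mul_le_mul_of_nonneg_right ?_ (by positivity)
    have h2 : ((e K : ℕ) : ℝ) ≤ b := by
      have := (e K).2
      exact_mod_cast (by omega : (e K : ℕ) ≤ b)
    have h3 : ((d K : ℕ) : ℝ) ≤ b := by
      have := (d K).2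
      exact_mod_cast (by omega : (d K : ℕ) ≤ b)
    have h4 : (0 : ℝ) ≤ ((e K : ℕ) : ℝ) := by positivity
    have h5 : (0 : ℝ) ≤ ((d K : ℕ) : ℝ) := by positivity
    rw [abs_le]
    constructor <;> linarith
  refine hlim.frequently (Frequently.of_forall fun K => ⟨?_, mem_range_self _⟩)
  rw [hval K]
  intro h
  have h1 : (((e K : ℕ) : ℝ) - ((d K : ℕ) : ℝ)) * (1 / b : ℝ) ^ (K + 1) = 0 := by linarith
  rcases mul_eq_zero.1 h1 with h2 | h2
  · apply he K
    have h3 : ((e K : ℕ) : ℝ) = ((d K : ℕ) : ℝ) := by linarith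
    exact Fin.ext (by exact_mod_cast h3)
  · have : (0 : ℝ) < (1 / b : ℝ) ^ (K + 1) := by positivity
    linarith

/-! ### Digit expansions -/

/-- A number none of whose digits in base `b` is `b - 1` lies in `⌊x⌋ + P_b`. -/
lemma mem_of_digits {b : ℕ} (hb : 2 ≤ b) {x : ℝ}
    (hx : ∀ k : ℕ, ¬ ((b : ℤ) ∣ ⌊(b : ℝ) ^ (k + 1) * x⌋ + 1)) : x - ⌊x⌋ ∈ P b := by
  have hb0 : (0 : ℝ) < b := by positivity
  have hbZ : (0 : ℤ) < b := by positivity
  have hb1 : (1 / b : ℝ) < 1 := by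
    rw [div_lt_one hb0]; exact_mod_cast (by omega : 1 < b)
  -- the digits
  have hdig : ∀ k : ℕ, 0 ≤ ⌊(b : ℝ) ^ (k + 1) * x⌋ - b * ⌊(b : ℝ) ^ k * x⌋ ∧
      ⌊(b : ℝ) ^ (k + 1) * x⌋ - b * ⌊(b : ℝ) ^ k * x⌋ < ((b - 1 : ℕ) : ℤ) := by
    intro k
    have h1 : (⌊(b : ℝ) ^ k * x⌋ : ℝ) ≤ (b : ℝ) ^ k * x := Int.floor_le _
    have h2 : (b : ℝ) ^ k * x < ⌊(b : ℝ) ^ k * x⌋ + 1 := Int.lt_floor_add_one _
    have h3 : (b : ℝ) ^ (k + 1) * x = b * ((b : ℝ) ^ k * x) := by ring
    have h4 : b * ⌊(b : ℝ) ^ k * x⌋ ≤ ⌊(b : ℝ) ^ (k + 1) * x⌋ := by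
      rw [Int.le_floor, h3]
      push_cast
      exact mul_le_mul_of_nonneg_left h1 hb0.le
    have h5 : ⌊(b : ℝ) ^ (k + 1) * x⌋ < b * (⌊(b : ℝ) ^ k * x⌋ + 1) := by
      rw [Int.floor_lt, h3]
      push_cast
      exact mul_lt_mul_of_pos_left h2 hb0
    refine ⟨by linarith, ?_⟩
    have h6 : ⌊(b : ℝ) ^ (k + 1) * x⌋ - b * ⌊(b : ℝ) ^ k * x⌋ ≠ (b : ℤ) - 1 := by
      intro h7
      apply hx k
      refine ⟨⌊(b : ℝ) ^ k * x⌋ + 1, ?_⟩
      linarith
    have h7 : ((b - 1 : ℕ) : ℤ) = (b : ℤ) - 1 := by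
      rw [Nat.cast_sub (by omega)]; rfl
    rw [h7]
    have h8 : ⌊(b : ℝ) ^ (k + 1) * x⌋ - b * ⌊(b : ℝ) ^ k * x⌋ < (b : ℤ) := by linarith
    omega
  have hlt : ∀ k : ℕ, (⌊(b : ℝ) ^ (k + 1) * x⌋ - b * ⌊(b : ℝ) ^ k * x⌋).toNat < b - 1 := by
    intro k
    have := hdig k
    omega
  refine ⟨fun k => ⟨_, hlt k⟩, ?_⟩
  refine HasSum.tsum_eq ?_
  rw [hasSum_iff_tendsto_nat_of_nonneg (fun k => by positivity)]
  have hpart : ∀ K : ℕ, ∑ k ∈ Finset.range K,
      (((⟨_, hlt k⟩ : Fin (b - 1)) : ℕ) : ℝ) * ((1 / b : ℝ) ^ (k + 1)) =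
      (⌊(b : ℝ) ^ K * x⌋ : ℝ) * (1 / b : ℝ) ^ K - ⌊x⌋ := by
    intro K
    induction K with
    | zero => simp
    | succ K ih =>
      rw [Finset.sum_range_succ, ih]
      have h1 : (((⌊(b : ℝ) ^ (K + 1) * x⌋ - b * ⌊(b : ℝ) ^ K * x⌋).toNat : ℕ) : ℝ) =
          (⌊(b : ℝ) ^ (K + 1) * x⌋ : ℝ) - b * ⌊(b : ℝ) ^ K * x⌋ := by
        have h2 : (((⌊(b : ℝ) ^ (K + 1) * x⌋ - b * ⌊(b : ℝ) ^ K * x⌋).toNat : ℕ) : ℤ) =
            ⌊(b : ℝ) ^ (K + 1) * x⌋ - b * ⌊(b : ℝ) ^ K * x⌋ := Int.toNat_of_nonneg (hdig K).1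
        have h3 : ((((⌊(b : ℝ) ^ (K + 1) * x⌋ - b * ⌊(b : ℝ) ^ K * x⌋).toNat : ℕ) : ℤ) : ℝ) =
            ((⌊(b : ℝ) ^ (K + 1) * x⌋ - b * ⌊(b : ℝ) ^ K * x⌋ : ℤ) : ℝ) := by rw [h2]
        push_cast at h3
        rw [← h3]
      simp only
      rw [h1, pow_succ (1 / (b : ℝ)) K]
      field_simp
      ring
  simp only [hpart]
  refine Tendsto.sub_const ?_ _
  have h1 : Tendsto (fun K : ℕ => (1 / b : ℝ) ^ K) atTop (𝓝 0) :=
    tendsto_pow_atTop_nhds_zero_of_lt_one (by positivity) hb1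
  rw [tendsto_iff_dist_tendsto_zero]
  refine squeeze_zero (fun K => dist_nonneg) (fun K => ?_) h1
  rw [Real.dist_eq]
  have h2 : (⌊(b : ℝ) ^ K * x⌋ : ℝ) * (1 / b : ℝ) ^ K - x =
      ((⌊(b : ℝ) ^ K * x⌋ : ℝ) - (b : ℝ) ^ K * x) * (1 / b : ℝ) ^ K := by
    have : (b : ℝ) ^ K * (1 / b : ℝ) ^ K = 1 := by
      rw [← mul_pow, mul_one_div_cancel hb0.ne', one_pow]
    rw [sub_mul, mul_right_comm, this]
    ring
  rw [h2, abs_mul, abs_of_nonneg (by positivity : (0 : ℝ) ≤ (1 / b : ℝ) ^ K)]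
  have h3 : (⌊(b : ℝ) ^ K * x⌋ : ℝ) ≤ (b : ℝ) ^ K * x := Int.floor_le _
  have h4 : (b : ℝ) ^ K * x < ⌊(b : ℝ) ^ K * x⌋ + 1 := Int.lt_floor_add_one _
  have h5 : |(⌊(b : ℝ) ^ K * x⌋ : ℝ) - (b : ℝ) ^ K * x| ≤ 1 := by
    rw [abs_le]; constructor <;> linarith
  calc |(⌊(b : ℝ) ^ K * x⌋ : ℝ) - (b : ℝ) ^ K * x| * (1 / b : ℝ) ^ K
      ≤ 1 * (1 / b : ℝ) ^ K := mul_le_mul_of_nonneg_right h5 (by positivity)
    _ = _ := one_mul _

/-- One greedy step: among `b > 2n` subintervals one is good for all shifts. -/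
lemma greedy {V : Type} [Fintype V] {b : ℕ} (hV : 2 * Fintype.card V < b) (v : V → ℝ) (k : ℕ)
    (c : ℝ) : ∃ r : ℕ, r < b ∧ ∀ y : ℝ, c + r * (1 / b : ℝ) ^ (k + 1) ≤ y →
      y ≤ c + (r + 1) * (1 / b : ℝ) ^ (k + 1) →
      ∀ a, ¬ ((b : ℤ) ∣ ⌊(b : ℝ) ^ (k + 1) * (y + v a)⌋ + 1) := by
  classical
  have hb0 : (0 : ℝ) < b := by
    have : 0 < b := by omega
    exact_mod_cast this
  have hbZ : (0 : ℤ) < b := by exact_mod_cast (by omega : 0 < b)
  let Z : V → ℤ := fun a => ⌊(b : ℝ) ^ (k + 1) * (c + v a)⌋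
  let Bad : Finset ℤ := Finset.univ.biUnion fun a : V =>
    ({(-Z a - 1) % (b : ℤ), (-Z a - 2) % (b : ℤ)} : Finset ℤ)
  have hcard : Bad.card < (Finset.Ico (0 : ℤ) b).card := by
    refine lt_of_le_of_lt (Finset.card_biUnion_le) ?_
    have h1 : ∀ a : V, ({(-Z a - 1) % (b : ℤ), (-Z a - 2) % (b : ℤ)} : Finset ℤ).card ≤ 2 :=
      fun a => Finset.card_le_two
    refine lt_of_le_of_lt (Finset.sum_le_sum fun a _ => h1 a) ?_
    rw [Finset.sum_const, Finset.card_univ, Int.card_Ico, smul_eq_mul]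
    simp only [sub_zero, Int.toNat_natCast]
    omega
  obtain ⟨r, hr, hrB⟩ := Finset.exists_mem_notMem_of_card_lt_card hcard
  rw [Finset.mem_Ico] at hr
  refine ⟨r.toNat, by omega, ?_⟩
  have hrc : ((r.toNat : ℕ) : ℝ) = (r : ℝ) := by
    have : ((r.toNat : ℕ) : ℤ) = r := Int.toNat_of_nonneg hr.1
    exact_mod_cast congrArg (fun z : ℤ => (z : ℝ)) this
  intro y hy1 hy2 a hdvd
  rw [hrc] at hy1 hy2
  apply hrB
  rw [Finset.mem_biUnion]
  refine ⟨a, Finset.mem_univ _, ?_⟩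
  have hpow : (b : ℝ) ^ (k + 1) * (1 / b : ℝ) ^ (k + 1) = 1 := by
    rw [← mul_pow, mul_one_div_cancel hb0.ne', one_pow]
  have hbp : (0 : ℝ) < (b : ℝ) ^ (k + 1) := by positivity
  have h1 : (b : ℝ) ^ (k + 1) * (c + v a) + r ≤ (b : ℝ) ^ (k + 1) * (y + v a) := by
    have := mul_le_mul_of_nonneg_left hy1 hbp.le
    have e : (b : ℝ) ^ (k + 1) * (c + r * (1 / b : ℝ) ^ (k + 1)) =
      (b : ℝ) ^ (k + 1) * c + r * ((b : ℝ) ^ (k + 1) * (1 / b : ℝ) ^ (k + 1)) := by ring
    rw [e, hpow] at this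
    linarith
  have h2 : (b : ℝ) ^ (k + 1) * (y + v a) ≤ (b : ℝ) ^ (k + 1) * (c + v a) + r + 1 := by
    have := mul_le_mul_of_nonneg_left hy2 hbp.le
    have e : (b : ℝ) ^ (k + 1) * (c + (r + 1) * (1 / b : ℝ) ^ (k + 1)) =
      (b : ℝ) ^ (k + 1) * c + (r + 1) * ((b : ℝ) ^ (k + 1) * (1 / b : ℝ) ^ (k + 1)) := by ring
    rw [e, hpow] at this
    linarith
  have h3 : (Z a : ℝ) ≤ (b : ℝ) ^ (k + 1) * (c + v a) := Int.floor_le _
  have h4 : (b : ℝ) ^ (k + 1) * (c + v a) < Z a + 1 := Int.lt_floor_add_one _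
  have h5 : Z a + r ≤ ⌊(b : ℝ) ^ (k + 1) * (y + v a)⌋ := by
    rw [Int.le_floor]; push_cast; linarith
  have h6 : ⌊(b : ℝ) ^ (k + 1) * (y + v a)⌋ < Z a + r + 2 := by
    rw [Int.floor_lt]; push_cast; linarith
  rw [Finset.mem_insert, Finset.mem_singleton]
  have hrmod : r % (b : ℤ) = r := Int.emod_eq_of_lt hr.1 hr.2
  have h7 : ⌊(b : ℝ) ^ (k + 1) * (y + v a)⌋ = Z a + r ∨
      ⌊(b : ℝ) ^ (k + 1) * (y + v a)⌋ = Z a + r + 1 := by omega
  rcases h7 with h7 | h7
  · left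
    rw [h7] at hdvd
    rw [← hrmod, Int.emod_eq_emod_iff_emod_sub_eq_zero, ← Int.dvd_iff_emod_eq_zero]
    obtain ⟨q, hq⟩ := hdvd
    exact ⟨q, by linarith⟩
  · right
    rw [h7] at hdvd
    rw [← hrmod, Int.emod_eq_emod_iff_emod_sub_eq_zero, ← Int.dvd_iff_emod_eq_zero]
    obtain ⟨q, hq⟩ := hdvd
    exact ⟨q, by linarith⟩

/-- Common points of small translates of the digit set. -/
lemma common_point {V : Type} [Fintype V] {b : ℕ} (hb : 2 ≤ b) (hV : 2 * Fintype.card V < b)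
    (v : V → ℝ) (hv : ∀ a, |v a| < 1) :
    ∃ y : ℝ, ∀ a, ∃ z : ℤ, (z = -1 ∨ z = 0 ∨ z = 1) ∧ y + v a - z ∈ P b := by
  have hb0 : (0 : ℝ) < b := by positivity
  choose r hr1 hr2 using fun (k : ℕ) (c : ℝ) => greedy hV v k c
  let c : ℕ → ℝ := fun n => Nat.rec 0 (fun k x => x + r k x * (1 / b : ℝ) ^ (k + 1)) n
  have hc0 : c 0 = 0 := rfl
  have hcs : ∀ k, c (k + 1) = c k + r k (c k) * (1 / b : ℝ) ^ (k + 1) := fun k => rfl
  let I : ℕ → Set ℝ := fun k => Icc (c k) (c k + (1 / b : ℝ) ^ k)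
  have hnest : ∀ k, I (k + 1) ⊆ I k := by
    intro k
    have h1 : ((r k (c k) : ℕ) : ℝ) + 1 ≤ b := by
      have := hr1 k (c k)
      exact_mod_cast this
    have h2 : (b : ℝ) * (1 / b : ℝ) ^ (k + 1) = (1 / b : ℝ) ^ k := by
      rw [pow_succ]
      field_simp
    have h3 : (0 : ℝ) < (1 / b : ℝ) ^ (k + 1) := by positivity
    refine Icc_subset_Icc ?_ ?_
    · rw [hcs]
      have : (0 : ℝ) ≤ (r k (c k) : ℝ) * (1 / b : ℝ) ^ (k + 1) := by positivity
      linarith
    · rw [hcs, ← h2]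
      nlinarith
  obtain ⟨y, hy⟩ := IsCompact.nonempty_iInter_of_sequence_nonempty_isCompact_isClosed I hnest
    (fun k => nonempty_Icc.2 (by have : (0 : ℝ) < (1 / b : ℝ) ^ k := by positivity
                                 linarith)) isCompact_Icc (fun k => isClosed_Icc)
  rw [mem_iInter] at hy
  refine ⟨y, fun a => ⟨⌊y + v a⌋, ?_, ?_⟩⟩
  · have h0 := hy 0
    simp only [I, hc0, pow_zero, mem_Icc] at h0
    have h1 := abs_lt.1 (hv a)
    have h2 : -1 ≤ ⌊y + v a⌋ := by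
      rw [Int.le_floor]; push_cast; linarith
    have h3 : ⌊y + v a⌋ < 2 := by
      rw [Int.floor_lt]; push_cast; linarith
    omega
  · refine mem_of_digits hb fun k => ?_
    have hk := hy (k + 1)
    simp only [I, hcs, mem_Icc] at hk
    refine hr2 k (c k) y hk.1 ?_ a
    rw [add_mul, one_mul, ← add_assoc]
    exact hk.2

/-! ### The universal Cantor set -/

/-- Three integer translates of the digit set. -/
def Q (b : ℕ) : Set ℝ := {x | ∃ z : ℤ, (z = -1 ∨ z = 0 ∨ z = 1) ∧ x - z ∈ P b}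

lemma Q_eq (b : ℕ) : Q b = (fun x => (-1 : ℝ) + x) '' P b ∪ ((fun x => (0 : ℝ) + x) '' P b ∪
    (fun x => (1 : ℝ) + x) '' P b) := by
  ext x
  simp only [Q, Set.mem_ofPred_eq, mem_union, mem_image]
  constructor
  · rintro ⟨z, rfl | rfl | rfl, h⟩
    · exact Or.inl ⟨_, h, by push_cast; ring⟩
    · exact Or.inr (Or.inl ⟨_, h, by push_cast; ring⟩)
    · exact Or.inr (Or.inr ⟨_, h, by push_cast; ring⟩)
  · rintro (⟨y, hy, rfl⟩ | ⟨y, hy, rfl⟩ | ⟨y, hy, rfl⟩)
    · exact ⟨-1, by simp, by push_cast; ring_nf; exact hy⟩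
    · exact ⟨0, by simp, by push_cast; ring_nf; exact hy⟩
    · exact ⟨1, by simp, by push_cast; ring_nf; exact hy⟩

lemma Q_compact {b : ℕ} (hb : 2 ≤ b) : IsCompact (Q b) := by
  rw [Q_eq]
  have h := P_compact hb
  exact (h.image (by fun_prop)).union ((h.image (by fun_prop)).union (h.image (by fun_prop)))

lemma Q_null {b : ℕ} (hb : 2 ≤ b) : volume (Q b) = 0 := by
  rw [Q_eq]
  have h : ∀ c : ℝ, volume ((fun x => c + x) '' P b) = 0 := by
    intro c
    rw [image_add_left, measure_preimage_add, P_null hb]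
  exact measure_union_null (h _) (measure_union_null (h _) (h _))

lemma phi_le {b : ℕ} (hb : 2 ≤ b) (d : ℕ → Fin (b - 1)) : phi b d ≤ 2 := by
  have hb0 : (0 : ℝ) < b := by positivity
  have hb2 : (1 / b : ℝ) ≤ 1 / 2 := by
    apply one_div_le_one_div_of_le (by norm_num)
    exact_mod_cast hb
  rw [← tsum_geometric_two]
  refine (phi_summable hb d).tsum_le_tsum (fun k => ?_) summable_geometric_two
  have h1 : ((d k : ℕ) : ℝ) ≤ b := by
    have := (d k).2
    exact_mod_cast (by omega : (d k : ℕ) ≤ b)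
  calc ((d k : ℕ) : ℝ) * (1 / b : ℝ) ^ (k + 1) ≤ b * (1 / b : ℝ) ^ (k + 1) := by gcongr
    _ = (1 / b : ℝ) ^ k := by
        rw [pow_succ]
        field_simp
    _ ≤ (1 / 2) ^ k := by gcongr

lemma Q_bound {b : ℕ} (hb : 2 ≤ b) {x : ℝ} (hx : x ∈ Q b) : |x| ≤ 3 := by
  obtain ⟨z, hz, d, hd⟩ := hx
  have h1 := phi_nonneg (b := b) d
  have h2 := phi_le hb d
  rw [hd] at h1 h2
  have h3 : |(z : ℝ)| ≤ 1 := by
    rcases hz with rfl | rfl | rfl <;> norm_num
  rw [abs_le] at h3 ⊢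
  constructor <;> linarith [h3.1, h3.2]

lemma zero_mem_Q {b : ℕ} (hb : 2 ≤ b) : (0 : ℝ) ∈ Q b := by
  refine ⟨0, by simp, fun _ => ⟨0, by omega⟩, ?_⟩
  simp [phi]

/-- The universal Cantor set. -/
def KK : Set ℝ := ⋃ n : ℕ, (fun x : ℝ => (1 / 2 : ℝ) ^ n * x) '' Q (2 * n + 3)

lemma KK_null : volume KK = 0 := by
  unfold KK
  rw [measure_iUnion_null_iff]
  intro n
  have h2 : (fun x : ℝ => (1 / 2 : ℝ) ^ n * x) '' Q (2 * n + 3) =
      ((1 / 2 : ℝ) ^ n) • Q (2 * n + 3) := rfl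
  rw [h2, Measure.addHaar_smul, Q_null (by omega), mul_zero]

lemma KK_bound {x : ℝ} (hx : x ∈ KK) : |x| ≤ 3 := by
  unfold KK at hx
  rw [mem_iUnion] at hx
  obtain ⟨n, q, hq, rfl⟩ := hx
  have h1 := Q_bound (by omega) hq
  have h2 : (1 / 2 : ℝ) ^ n ≤ 1 := pow_le_one₀ (by norm_num) (by norm_num)
  simp only
  rw [abs_mul, abs_of_nonneg (by positivity : (0 : ℝ) ≤ (1 / 2) ^ n)]
  calc (1 / 2 : ℝ) ^ n * |q| ≤ 1 * 3 := by gcongr
    _ = 3 := one_mul _

lemma zero_mem_KK : (0 : ℝ) ∈ KK := by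
  unfold KK
  rw [mem_iUnion]
  exact ⟨0, 0, zero_mem_Q (by omega), by simp⟩

lemma KK_closed : IsClosed KK := by
  rw [← closure_subset_iff_isClosed]
  intro x hx
  by_cases hx0 : x = 0
  · rw [hx0]; exact zero_mem_KK
  have hxpos : 0 < |x| := abs_pos.2 hx0
  obtain ⟨M, hM⟩ := exists_pow_lt_of_lt_one (by positivity : 0 < |x| / 3)
    (by norm_num : (1 / 2 : ℝ) < 1)
  have hsub : KK ⊆ (⋃ n ∈ Finset.range M, (fun x : ℝ => (1 / 2 : ℝ) ^ n * x) '' Q (2 * n + 3)) ∪
      Metric.closedBall 0 (3 * (1 / 2) ^ M) := by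
    intro y hy
    unfold KK at hy
    rw [mem_iUnion] at hy
    obtain ⟨n, q, hq, rfl⟩ := hy
    by_cases hn : n < M
    · left
      rw [mem_iUnion₂]
      exact ⟨n, Finset.mem_range.2 hn, q, hq, rfl⟩
    · right
      rw [mem_closedBall_zero_iff, Real.norm_eq_abs, abs_mul,
        abs_of_nonneg (by positivity : (0 : ℝ) ≤ (1 / 2) ^ n)]
      have h1 := Q_bound (by omega) hq
      have h2 : (1 / 2 : ℝ) ^ n ≤ (1 / 2) ^ M :=
        pow_le_pow_of_le_one (by norm_num) (by norm_num) (not_lt.1 hn)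
      calc (1 / 2 : ℝ) ^ n * |q| ≤ (1 / 2) ^ M * 3 := by gcongr
        _ = _ := by ring
  have hcl : IsClosed ((⋃ n ∈ Finset.range M, (fun x : ℝ => (1 / 2 : ℝ) ^ n * x) '' Q (2 * n + 3)) ∪
      Metric.closedBall (0 : ℝ) (3 * (1 / 2) ^ M)) := by
    refine IsClosed.union ?_ Metric.isClosed_closedBall
    refine isClosed_biUnion_finset fun n _ => ?_
    exact ((Q_compact (by omega)).image (by fun_prop)).isClosed
  have hx2 := closure_minimal hsub hcl hx
  rcases hx2 with h | h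
  · rw [mem_iUnion₂] at h
    obtain ⟨n, _, hn⟩ := h
    exact mem_iUnion.2 ⟨n, hn⟩
  · rw [mem_closedBall_zero_iff, Real.norm_eq_abs] at h
    exfalso
    linarith

lemma KK_compact : IsCompact KK :=
  (isCompact_closedBall (0 : ℝ) 3).of_isClosed_subset KK_closed
    (fun x hx => by rw [mem_closedBall_zero_iff, Real.norm_eq_abs]; exact KK_bound hx)

lemma KK_accPt (x : ℝ) (hx : x ∈ KK) : AccPt x (𝓟 KK) := by
  unfold KK at hx
  rw [mem_iUnion] at hx
  obtain ⟨n, q, ⟨z, hz, hp⟩, rfl⟩ := hx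
  have h1 := P_accPt (b := 2 * n + 3) (by omega) _ hp
  rw [accPt_iff_frequently] at h1 ⊢
  let f : ℝ → ℝ := fun y => (1 / 2 : ℝ) ^ n * (z + y)
  have hf : Tendsto f (𝓝 (q - z)) (𝓝 (f (q - z))) := by
    have : Continuous f := by fun_prop
    exact this.tendsto _
  have hfq : f (q - z) = (1 / 2 : ℝ) ^ n * q := by simp [f]
  rw [hfq] at hf
  refine hf.frequently (h1.mono ?_)
  rintro y ⟨hy1, hy2⟩
  constructor
  · intro h
    apply hy1
    have h2 : (0 : ℝ) < (1 / 2) ^ n := by positivity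
    have h3 := mul_left_cancel₀ h2.ne' h
    linarith
  · unfold KK
    rw [mem_iUnion]
    exact ⟨n, z + y, ⟨z, hz, by simpa using hy2⟩, rfl⟩

lemma null_totallyDisconnected {S : Set ℝ} (hS : volume S = 0) : IsTotallyDisconnected S := by
  intro t ht hpre x hx y hy
  by_contra hne
  rcases lt_or_gt_of_ne hne with h | h
  · have h1 := hpre.Icc_subset hx hy
    have h2 : volume (Icc x y) = 0 := measure_mono_null (h1.trans ht) hS
    rw [Real.volume_Icc, ENNReal.ofReal_eq_zero] at h2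
    linarith
  · have h1 := hpre.Icc_subset hy hx
    have h2 : volume (Icc y x) = 0 := measure_mono_null (h1.trans ht) hS
    rw [Real.volume_Icc, ENNReal.ofReal_eq_zero] at h2
    linarith

lemma KK_cantor : IsCantor KK :=
  ⟨⟨0, zero_mem_KK⟩, KK_compact, null_totallyDisconnected KK_null, KK_accPt⟩

/-- Finitely many small translates of `KK` have a common point. -/
lemma KK_common (V : Type) [Fintype V] : ∃ ε : ℝ, 0 < ε ∧ ∀ v : V → ℝ, (∀ a, |v a| < ε) →
    ∃ y : ℝ, ∀ a, y + v a ∈ KK := by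
  set n := Fintype.card V
  refine ⟨(1 / 2) ^ n, by positivity, fun v hv => ?_⟩
  have h2 : (0 : ℝ) < (1 / 2) ^ n := by positivity
  obtain ⟨y, hy⟩ := common_point (b := 2 * n + 3) (by omega) (by omega)
    (fun a => v a / (1 / 2) ^ n) (fun a => by
      rw [abs_div, abs_of_pos h2, div_lt_one h2]
      exact hv a)
  refine ⟨(1 / 2) ^ n * y, fun a => ?_⟩
  unfold KK
  rw [mem_iUnion]
  refine ⟨n, y + v a / (1 / 2) ^ n, hy a, ?_⟩
  simp only
  rw [mul_add, mul_div_cancel₀ _ h2.ne']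

/-! ### Trees -/

/-- The signed edge-difference map relative to an injective height `w`. -/
noncomputable def edgeDiff {V : Type} (T : SimpleGraph V) (w : V → ℝ) :
    (V → ℝ) →ₗ[ℝ] (T.edgeSet → ℝ) where
  toFun v e := Sym2.lift ⟨fun a b => SignType.sign (w b - w a) * (v b - v a), fun a b => by
    have h : w a - w b = -(w b - w a) := by ring
    simp only
    rw [h, Left.sign_neg]
    push_cast
    ring⟩ e.1
  map_add' u v := by
    funext e
    obtain ⟨e, he⟩ := e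
    induction e with | _ a b
    simp only [Sym2.lift_mk, Pi.add_apply]
    ring
  map_smul' c v := by
    funext e
    obtain ⟨e, he⟩ := e
    induction e with | _ a b
    simp only [Sym2.lift_mk, Pi.smul_apply, smul_eq_mul, RingHom.id_apply]
    ring

lemma edgeDiff_apply {V : Type} (T : SimpleGraph V) (w : V → ℝ) (v : V → ℝ) (a b : V)
    (h : T.Adj a b) : edgeDiff T w v ⟨s(a, b), h⟩ = SignType.sign (w b - w a) * (v b - v a) := rfl

lemma edgeDiff_surj {V : Type} [Fintype V] (T : SimpleGraph V) (hT : T.IsTree) (w : V → ℝ)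
    (hw : Function.Injective w) : Function.Surjective (edgeDiff T w) := by
  classical
  have hne : Nonempty V := hT.connected.nonempty
  obtain ⟨r⟩ := hne
  -- the kernel is at most one-dimensional
  have hker : ∀ v ∈ LinearMap.ker (edgeDiff T w), ∀ a b : V, v a = v b := by
    intro v hv a b
    rw [LinearMap.mem_ker] at hv
    have hadj : ∀ a b : V, T.Adj a b → v a = v b := by
      intro a b hab
      have h1 := congrFun hv ⟨s(a, b), hab⟩
      rw [edgeDiff_apply, Pi.zero_apply, mul_eq_zero] at h1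
      rcases h1 with h1 | h1
      · exfalso
        rcases lt_or_gt_of_ne (fun h => hab.ne (hw h)) with h | h
        · rw [sign_pos (by linarith), SignType.coe_one] at h1
          exact one_ne_zero h1
        · rw [sign_neg (by linarith), SignType.coe_neg_one] at h1
          norm_num at h1
      · linarith
    obtain ⟨p⟩ := hT.connected.preconnected a b
    induction p with
    | nil => rfl
    | cons h _ ih => exact (hadj _ _ h).trans ih
  have hker1 : Module.finrank ℝ (LinearMap.ker (edgeDiff T w)) ≤ 1 := by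
    let ev : LinearMap.ker (edgeDiff T w) →ₗ[ℝ] ℝ :=
      (LinearMap.proj r).comp (LinearMap.ker (edgeDiff T w)).subtype
    have hinj : Function.Injective ev := by
      intro u v huv
      apply Subtype.ext
      funext a
      rw [hker u.1 u.2 a r, hker v.1 v.2 a r]
      exact huv
    have := LinearMap.finrank_le_finrank_of_injective hinj
    rwa [Module.finrank_self] at this
  have hrn := (edgeDiff T w).finrank_range_add_finrank_ker
  rw [Module.finrank_fintype_fun_eq_card] at hrn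
  have hcard := hT.card_edgeFinset
  have hcod : Module.finrank ℝ (T.edgeSet → ℝ) = T.edgeFinset.card := by
    rw [Module.finrank_fintype_fun_eq_card, SimpleGraph.edgeFinset, Set.toFinset_card]
  have hle : Module.finrank ℝ (LinearMap.range (edgeDiff T w)) ≤
      Module.finrank ℝ (T.edgeSet → ℝ) := Submodule.finrank_le _
  rw [← LinearMap.range_eq_top]
  refine Submodule.eq_top_of_finrank_eq ?_
  omega

lemma tree_interior {V : Type} [Fintype V] (T : SimpleGraph V) (hT : T.IsTree) (K : Set ℝ)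
    (hK : K.Nonempty) : (interior (treeDistanceSet T (planeProd K KK))).Nonempty := by
  classical
  obtain ⟨x0, hx0⟩ := hK
  obtain ⟨ε, hε, hcom⟩ := KK_common V
  let w : V → ℝ := fun a => ((Fintype.equivFin V a : ℕ) : ℝ)
  have hw : Function.Injective w := fun a b h => by
    have h1 : (Fintype.equivFin V a : ℕ) = (Fintype.equivFin V b : ℕ) := by
      simp only [w] at h
      exact_mod_cast h
    exact (Fintype.equivFin V).injective (Fin.ext h1)
  let O : Set (V → ℝ) := {v | (∀ a b, w a < w b → v a < v b) ∧ ∀ a, |v a| < ε}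
  have hO : IsOpen O := by
    have h1 : O = (⋂ a, ⋂ b, {v : V → ℝ | w a < w b → v a < v b}) ∩
        ⋂ a, {v : V → ℝ | |v a| < ε} := by
      ext v
      simp [O]
    rw [h1]
    refine IsOpen.inter ?_ ?_
    · refine isOpen_iInter_of_finite fun a => isOpen_iInter_of_finite fun b => ?_
      by_cases hab : w a < w b
      · simp only [hab, true_imp_iff]
        exact isOpen_lt (continuous_apply a) (continuous_apply b)
      · simp [hab]
    · refine isOpen_iInter_of_finite fun a => ?_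
      exact isOpen_lt (continuous_apply a).abs continuous_const
  have hOne : O.Nonempty := by
    set n : ℝ := Fintype.card V + 1 with hn
    have hnpos : 0 < n := by positivity
    refine ⟨fun a => ε / n * w a, ?_, ?_⟩
    · intro a b hab
      have : 0 < ε / n := by positivity
      exact mul_lt_mul_of_pos_left hab this
    · intro a
      have h1 : 0 ≤ w a := by positivity
      have h2 : w a < n := by
        have := (Fintype.equivFin V a).2
        have h3 : w a < Fintype.card V := by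
          simp only [w]
          exact_mod_cast this
        linarith
      rw [abs_of_nonneg (by positivity)]
      calc ε / n * w a < ε / n * n := by
            have : 0 < ε / n := by positivity
            exact mul_lt_mul_of_pos_left h2 this
        _ = ε := by field_simp
  have hopen : IsOpen ((edgeDiff T w) '' O) :=
    (LinearMap.isOpenMap_of_finiteDimensional _ (edgeDiff_surj T hT w hw)) O hO
  obtain ⟨v0, hv0⟩ := hOne
  refine ⟨edgeDiff T w v0, ?_⟩
  refine mem_interior.2 ⟨(edgeDiff T w) '' O, ?_, hopen, mem_image_of_mem _ hv0⟩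
  rintro _ ⟨v, ⟨hv1, hv2⟩, rfl⟩
  obtain ⟨y, hy⟩ := hcom v hv2
  refine ⟨fun a => !₂[x0, y + v a], ?_, ?_, ?_⟩
  · intro a b hab
    have h1 : y + v a = y + v b := by
      have := congrFun (congrArg (fun z : EuclideanSpace ℝ (Fin 2) => (z : Fin 2 → ℝ)) hab) 1
      simpa using this
    by_contra hne
    rcases lt_or_gt_of_ne (fun h => hne (hw h)) with h | h
    · have := hv1 _ _ h; linarith
    · have := hv1 _ _ h; linarith
  · intro a
    exact ⟨by simpa using hx0, by simpa using hy a⟩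
  · intro a b hab
    rw [edgeDiff_apply, EuclideanSpace.dist_eq, Fin.sum_univ_two]
    simp only [Real.dist_eq]
    have h1 : |y + v a - (y + v b)| = SignType.sign (w b - w a) * (v b - v a) := by
      rcases lt_or_gt_of_ne (fun h => hab.ne (hw h)) with h | h
      · rw [sign_pos (by linarith), SignType.coe_one, one_mul]
        have := hv1 _ _ h
        rw [abs_of_nonpos (by linarith)]
        ring
      · rw [sign_neg (by linarith), SignType.coe_neg_one]
        have := hv1 _ _ h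
        rw [abs_of_nonneg (by linarith)]
        ring
    simp only [Matrix.cons_val_zero, Matrix.cons_val_one, sub_self, abs_zero]
    rw [← h1]
    norm_num
    exact (Real.sqrt_sq_eq_abs _).symm

/-- **Q1 has a positive answer**, with one Cantor set, of Lebesgue measure zero, that works for
all `K` and all finite trees simultaneously. -/
theorem result : ∃ K' : Set ℝ, IsCantor K' ∧ volume K' = 0 ∧
    ∀ K : Set ℝ, IsCantor K → ∀ (V : Type) [Fintype V] (T : SimpleGraph V), T.IsTree →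
      (interior (treeDistanceSet T (planeProd K K'))).Nonempty :=
  ⟨KK, KK_cantor, KK_null, fun K hK _ _ T hT => tree_interior T hT K hK.nonempty⟩

end Pool.Agent.Results.MP_d100af_an.UniversalPartner
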